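import Pool.Agent.Helper34.FF.Goals4
import Pool.Agent.Helper34.FF.G1

/-!
# Vertices between the cuts `A` and `S` are not between `x` and `z` (MP_7cb822_co)
-/

namespace Pool.Agent.Helper11.FF

open Finset Pool.Agent.Helper34.FF
open scoped symmDiff Classical

theorem isW_concat {V : Type} {G : SimpleGraph V} {k l : ℕ} {a b : ℕ → V} {x y z : V}
    (h1 : IsW G k a x y) (h2 : IsW G l b y z) :
    IsW G (k + l) (fun i => if i ≤ k then a i else b (i - k)) x z := by
  obtain ⟨ha0, hak, ha⟩ := h1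
  obtain ⟨hb0, hbl, hb⟩ := h2
  refine ⟨?_, ?_, ?_⟩
  · simp [ha0]
  · by_cases h : l = 0
    · subst h
      simp [hak]
      rw [← hb0, hbl]
    · have h' : ¬ (k + l ≤ k) := by omega
      simp [h', hbl]
  · intro i hi
    by_cases h : i < k
    · have h1 : i ≤ k := by omega
      have h2 : i + 1 ≤ k := by omega
      simp only [h1, h2, if_true]
      exact ha i h
    · have h2 : ¬ (i + 1 ≤ k) := by omega
      simp only [h2, if_false]
      by_cases h3 : i ≤ k
      · have h4 : i = k := by omega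
        subst h4
        simp only [le_refl, if_true]
        have := hb 0 (by omega)
        rw [hb0, ← hak] at this
        have e3 : i + 1 - i = 0 + 1 := by omega
        rw [e3]
        exact this
      · simp only [h3, if_false]
        have e2 : i + 1 - k = (i - k) + 1 := by omega
        rw [e2]
        exact hb (i - k) (by omega)

theorem exists_isW_dist {V : Type} {G : SimpleGraph V} (hG : G.Connected) (x y : V) :
    ∃ a, IsW G (G.dist x y) a x y := by
  obtain ⟨p, hp⟩ := hG.exists_walk_length_eq_dist x y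
  refine ⟨p.getVert, p.getVert_zero, ?_, ?_⟩
  · rw [← hp]; exact p.getVert_length
  · intro i hi
    rw [← hp] at hi
    exact p.adj_getVert_succ hi

/-- The symmetric difference of the edge sets of two paths with the same ends is even. -/
theorem even_paths {V : Type} {G : SimpleGraph V} {k k' : ℕ} {a a' : ℕ → V} {x y : V}
    (h : IsW G k a x y) (h' : IsW G k' a' x y) (hI : Inj k a) (hI' : Inj k' a') :
    EvenSet (wE k a ∆ wE k' a') := by
  intro v
  have h1 := ((pPar V G).2 k a x y h hI).2 v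
  have h2 := ((pPar V G).2 k' a' x y h' hI').2 v
  have h3 : (wE k a ∆ wE k' a').filter (fun e => v ∈ e) =
      ((wE k a).filter fun e => v ∈ e) ∆ ((wE k' a').filter fun e => v ∈ e) := by
    ext e
    simp only [mem_filter, mem_symmDiff]
    tauto
  rw [h3]
  have h4 := Pool.Agent.Helper90.FF.card_symmDiff_add ((wE k a).filter fun e => v ∈ e)
    ((wE k' a').filter fun e => v ∈ e)
  have h5 : Odd ((wE k a).filter fun e => v ∈ e).card ↔
      Odd ((wE k' a').filter fun e => v ∈ e).card := h1.trans h2.symm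
  rcases Nat.even_or_odd ((wE k a).filter fun e => v ∈ e).card with he | ho
  · have he' : Even ((wE k' a').filter fun e => v ∈ e).card := by
      rw [← Nat.not_odd_iff_even]
      intro ho
      exact (Nat.not_odd_iff_even.2 he) (h5.2 ho)
    obtain ⟨m, hm⟩ := he
    obtain ⟨n, hn⟩ := he'
    rw [Nat.even_iff]
    omega
  · have ho' := h5.1 ho
    obtain ⟨m, hm⟩ := ho
    obtain ⟨n, hn⟩ := ho'
    rw [Nat.even_iff]
    omega

theorem pf_StmtNotBetween : StmtNotBetween := by
  intro V F _ _ T hS L e l lam Xa T₁ A S c δ x z w hA hXA hAS hST hlenA hI hδ hδl hx hz harc hwA hwS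
    hsum
  obtain ⟨_, hcompl, _, htwo, _, hdisj, _⟩ := pAlg V F T
  obtain ⟨_, hVin, hVbdc, hVbd4, _⟩ := pTri V F T hS
  obtain ⟨cA, hIA⟩ := hA.iso A hXA (hAS.trans hST) hlenA
  have hINA : T.IN A := ((pIso V F T hS).1 _ _ _ hIA).1
  have hINS : T.IN Sᶜ := ((pIso V F T hS).1 _ _ _ hI).2.1
  have hISc : T.Iso Sᶜ l c := ((pIso V F T hS).1 _ _ _ hI).2.2.1
  have hBA : T.Bond A := ((pEnumFacts V F T hS) _ _ _ hIA.1).1
  have hBS : T.Bond Sᶜ := ((pEnumFacts V F T hS) _ _ _ hISc.1).1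
  have hASc : Disjoint A Sᶜ := by
    rw [disjoint_left]
    intro g hg hg'
    exact (mem_compl.1 hg') (hAS hg)
  have hne : ∀ X ∈ ({A, Sᶜ} : Finset (Finset F)), X = A ∨ X = Sᶜ := by
    intro X hX
    simpa using hX
  have hobst : T.Obst {A, Sᶜ} := by
    constructor
    · intro X hX
      rcases hne X hX with rfl | rfl
      · exact ⟨hBA, hINA⟩
      · exact ⟨hBS, hINS⟩
    · intro X hX Y hY hXY
      rcases hne X hX with rfl | rfl <;> rcases hne Y hY with rfl | rfl
      · exact absurd rfl hXY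
      · exact hASc
      · exact hASc.symm
      · exact absurd rfl hXY
  obtain ⟨-, -, -, hmem, -, harcs, hpaths, -, -, -⟩ := pEnumFacts V F T hS S l c hI.1
  have hbdS : ∀ v ∈ T.Vbd S, ∀ X ∈ ({A, Sᶜ} : Finset (Finset F)), v ∉ T.Vin X := by
    intro v hv X hX hvX
    obtain ⟨⟨f, hfS, hf⟩, g, hgS, hg⟩ := hVbd4 S v hv
    simp only [Tri.Vin, mem_filter, mem_univ, true_and] at hvX
    rcases hne X hX with rfl | rfl
    · exact hgS (hAS (hvX g hg))
    · exact (mem_compl.1 (hvX f hf)) hfS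
  have hxb : x ∈ T.Vbd S := (hmem x).2 ⟨0, hx.symm⟩
  have hzb : z ∈ T.Vbd S := (hmem z).2 ⟨δ, hz.symm⟩
  have hw : ∀ X ∈ ({A, Sᶜ} : Finset (Finset F)), w ∉ T.Vin X := by
    intro X hX hwX
    rcases hne X hX with rfl | rfl
    · exact (hVin _ _ hwX).2 hwA
    · exact hwS hwX
  have hdist : T.G.dist x z = δ := by
    have h := Pool.Agent.Helper7.FF.dist_int T S l c hI 0 δ (by omega) (by omega)
    rw [hx, hz] at h
    have : (T.G.dist x z : ℤ) = δ := by
      rw [h]
      omega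
    exact_mod_cast this
  -- the walk through `w`
  obtain ⟨b1, hb1⟩ := exists_isW_dist hS.conn x w
  obtain ⟨b2, hb2⟩ := exists_isW_dist hS.conn w z
  obtain ⟨k₁, hk₁, a₁, ha₁⟩ := pAvoid V F T hS _ hobst (T.G.dist x w) x w (hbdS x hxb) hw
    ⟨_, le_rfl, b1, hb1⟩
  obtain ⟨k₂, hk₂, a₂, ha₂⟩ := pAvoid V F T hS _ hobst (T.G.dist w z) w z hw (hbdS z hzb)
    ⟨_, le_rfl, b2, hb2⟩
  have hom := isW_concat ha₁ ha₂
  set om : ℕ → V := fun i => if i ≤ k₁ then a₁ i else a₂ (i - k₁) with hom_def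
  have homw : om k₁ = w := by
    simp only [hom_def, le_refl, if_true]
    exact ha₁.2.1
  have homG : IsW T.G (k₁ + k₂) om x z := ⟨hom.1, hom.2.1, fun i hi => (hom.2.2 i hi).1⟩
  have hk : k₁ + k₂ = δ := by
    have := Pool.Agent.Helper7.FF.dist_le_of_isW _ _ _ _ _ homG
    omega
  rw [hk] at hom homG
  have hinj : Inj δ om := by
    have key : ∀ i j, i < j → j ≤ δ → om i = om j → False := by
      intro i j hij hj he
      obtain ⟨b, hb⟩ := Pool.Agent.Helper93.FF.isW_cut homG hij hj he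
      have := Pool.Agent.Helper7.FF.dist_le_of_isW _ _ _ _ _ hb
      omega
    intro i hi j hj he
    rcases lt_trichotomy i j with h | h | h
    · exact (key i j h hj he).elim
    · exact h
    · exact (key j i h hi he.symm).elim
  -- the arc
  obtain ⟨hp1, hp2, hp3⟩ := hpaths 0 δ (by omega) (by omega)
  have htn : ((δ : ℤ) - 0).toNat = δ := by omega
  rw [htn] at hp1 hp2 hp3
  rw [hx, hz] at hp1
  have heven : EvenSet (arcE c 0 δ ∆ wE δ om) := by
    rw [← hp3]
    exact even_paths hp1 homG hp2 hinj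
  have hsub : arcE c 0 δ ⊆ T.bdry S := (harcs 0 δ (by omega) (by omega)).2.1
  have hcards : (arcE c 0 δ).card = δ := by
    rw [(harcs 0 δ (by omega) (by omega)).1]
    omega
  have hcardW : (wE δ om).card = δ := ((pPar V T.G).2 δ om x z homG hinj).1
  have hWav : ∀ f ∈ wE δ om, f ∈ T.G.edgeSet ∧
      ∀ X ∈ ({A, Sᶜ} : Finset (Finset F)), f ∉ T.inn X := by
    intro f hf
    obtain ⟨i, hi, rfl⟩ := Helper52FF.mem_wE.1 hf
    have := hom.2.2 i hi
    exact ⟨this.1, this.2⟩
  have hedge : ∀ f ∈ arcE c 0 δ ∆ wE δ om, f ∈ T.G.edgeSet := by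
    intro f hf
    rw [mem_symmDiff] at hf
    rcases hf with hf | hf
    · exact (Pool.Agent.Helper32.FF.bdry_face T (hsub hf.1)).1
    · exact (hWav f hf.1).1
  obtain ⟨Z₀, hZ₀⟩ := hS.span _ hedge heven
  have hSc : ∀ f ∈ arcE c 0 δ ∆ wE δ om, f ∉ T.inn Sᶜ := by
    intro f hf
    rw [mem_symmDiff] at hf
    rcases hf with hf | hf
    · have h1 : f ∈ T.bdry Sᶜ := by rw [hcompl]; exact hsub hf.1
      exact (disjoint_left.1 (hdisj Sᶜ)) h1
    · exact (hWav f hf.1).2 _ (by simp)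
  obtain ⟨Z, hZ, hZS⟩ : ∃ Z, T.bdry Z = arcE c 0 δ ∆ wE δ om ∧ Disjoint Sᶜ Z := by
    rcases pNoCut V F T Sᶜ Z₀ hBS.1 (by rw [hZ₀]; exact hSc) with h | h
    · refine ⟨Z₀ᶜ, by rw [hcompl]; exact hZ₀, ?_⟩
      rw [disjoint_left]
      intro g hg hg'
      exact (mem_compl.1 hg') (h hg)
    · exact ⟨Z₀, hZ₀, h⟩
  have hZinS : Z ⊆ S := by
    intro g hg
    by_contra h
    exact (disjoint_left.1 hZS) (mem_compl.2 h) hg
  have hAA : ∀ f ∈ T.bdry Z, f ∉ T.inn A := by
    intro f hf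
    rw [hZ, mem_symmDiff] at hf
    rcases hf with hf | hf
    · exact (disjoint_left.1 (hdisj A)) (harc hf.1)
    · exact (hWav f hf.1).2 _ (by simp)
  have hZA : Disjoint A Z := by
    rcases pNoCut V F T A Z hBA.1 hAA with h | h
    · exfalso
      have h1 := hA.sep Z (hXA.trans h) (hZinS.trans hST)
      have h2 := Pool.Agent.Helper90.FF.card_symmDiff_add (arcE c 0 δ) (wE δ om)
      have h3 : T.len Z = (arcE c 0 δ ∆ wE δ om).card := by
        unfold Tri.len
        rw [hZ]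
      omega
    · exact h
  -- an edge of the arc which is not on the walk
  obtain ⟨f, hfs, hfW⟩ : ∃ f ∈ arcE c 0 δ, f ∉ wE δ om := by
    by_contra hcon
    push Not at hcon
    have hsW : arcE c 0 δ = wE δ om := eq_of_subset_of_card_le hcon (by omega)
    obtain ⟨g, hg, hwg⟩ : ∃ g ∈ wE δ om, w ∈ g := by
      by_cases h : k₁ < δ
      · refine ⟨s(om k₁, om (k₁ + 1)), Helper52FF.mem_wE.2 ⟨k₁, h, rfl⟩, ?_⟩
        rw [homw]
        exact Sym2.mem_mk_left _ _
      · have h1 : k₁ = (δ - 1) + 1 := by omega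
        refine ⟨s(om (δ - 1), om ((δ - 1) + 1)), Helper52FF.mem_wE.2 ⟨δ - 1, by omega, rfl⟩, ?_⟩
        rw [← h1, homw]
        exact Sym2.mem_mk_right _ _
    rw [← hsW] at hg
    have h1 : w ∈ T.Vbd A := by
      simp only [Tri.Vbd, mem_filter, mem_univ, true_and]
      exact ⟨g, harc hg, hwg⟩
    have h2 := (hVin _ _ hwA).1
    rw [hVbdc] at h2
    exact h2 h1
  have hfZ : f ∈ T.bdry Z := by
    rw [hZ, mem_symmDiff]
    exact Or.inl ⟨hfs, hfW⟩
  have face : ∀ Y : Finset F, f ∈ T.bdry Y → ∃ g ∈ Y, T.on f g := by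
    intro Y hY
    have h := (Pool.Agent.Helper32.FF.bdry_face T hY).2
    have h2 : (Y.filter fun g => T.on f g).Nonempty := by
      rw [← card_pos]
      omega
    obtain ⟨g, hg⟩ := h2
    rw [mem_filter] at hg
    exact ⟨g, hg.1, hg.2⟩
  obtain ⟨g1, hg1, ho1⟩ := face Z hfZ
  obtain ⟨g2, hg2, ho2⟩ := face A (harc hfs)
  obtain ⟨g3, hg3, ho3⟩ := face Sᶜ (by rw [hcompl]; exact hsub hfs)
  have h12 : g1 ≠ g2 := fun h => (disjoint_left.1 hZA) hg2 (h ▸ hg1)
  have h13 : g1 ≠ g3 := fun h => (disjoint_left.1 hZS) hg3 (h ▸ hg1)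
  have h23 : g2 ≠ g3 := fun h => (disjoint_left.1 hASc) hg2 (h ▸ hg3)
  have hcard3 : ({g1, g2, g3} : Finset F).card = 3 := card_eq_three.2 ⟨g1, g2, g3, h12, h13, h23, rfl⟩
  have hle : ({g1, g2, g3} : Finset F) ⊆ univ.filter fun g => T.on f g := by
    intro g hg
    simp only [mem_insert, mem_singleton] at hg
    simp only [mem_filter, mem_univ, true_and]
    rcases hg with rfl | rfl | rfl
    · exact ho1
    · exact ho2
    · exact ho3
  have h1 := card_le_card hle
  have h2 := htwo f (Pool.Agent.Helper32.FF.bdry_face T hfZ).1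
  omega

end Pool.Agent.Helper11.FF
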