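import Pool.Agent.Helper34.FF.Goals3
import Pool.Agent.Helper34.FF.G1
import Pool.Agent.Helper1.FF2.Goals2

/-!
# Every bad vertex outside three blobs is on cuts of two types (MP_7cb822_co)
-/

namespace Pool.Agent.Helper11.FF

open Finset Pool.Agent.Helper34.FF
open scoped symmDiff Classical

theorem fin3 : ∀ i j k j' : Fin 3, i ≠ j → i ≠ k → j ≠ k → j' ≠ i → j' = j ∨ j' = k := by
  decide

theorem pf_StmtTypes (hSec : Pool.Agent.Helper1.FF2.StmtSectors) : StmtTypes := by
  intro V F _ _ T hS e l B u hB hbad hout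
  obtain ⟨_, hcompl, _⟩ := pAlg V F T
  obtain ⟨_, hVin, hVbd, _, _⟩ := pTri V F T hS
  have lenc : ∀ Y : Finset F, T.len Yᶜ = T.len Y := fun Y => by
    unfold Tri.len; rw [hcompl]
  have bond : ∀ i, T.Bond (B i) ∧ T.IN (B i) := fun i => by
    obtain ⟨c, hc⟩ := hB.iso i
    exact ⟨((pEnumFacts V F T hS) _ _ _ hc.1).1, ((pIso V F T hS).1 _ _ _ hc).1⟩
  -- the main claim
  have claim : ∀ i j k : Fin 3, i ≠ j → i ≠ k → j ≠ k →
      (∃ A, T.Cl B l i A ∧ u ∈ T.Vbd A) ∨
      ((∃ A, T.Cl B l j A ∧ u ∈ T.Vbd A) ∧ (∃ A, T.Cl B l k A ∧ u ∈ T.Vbd A)) := by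
    intro i j k hij hik hjk
    obtain ⟨c, hc⟩ := hB.iso i
    have hne : ∀ X ∈ ({B j, B k} : Finset (Finset F)), X = B j ∨ X = B k := by
      intro X hX
      simpa using hX
    have hobst : T.Obst {B j, B k} := by
      constructor
      · intro X hX
        rcases hne X hX with rfl | rfl
        · exact bond j
        · exact bond k
      · intro X hX Y hY hXY
        rcases hne X hX with rfl | rfl <;> rcases hne Y hY with rfl | rfl
        · exact absurd rfl hXY
        · exact hB.disj _ _ hjk
        · exact hB.disj _ _ hjk.symm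
        · exact absurd rfl hXY
    have hdisj : ∀ X ∈ ({B j, B k} : Finset (Finset F)), Disjoint X (B i) := by
      intro X hX
      rcases hne X hX with rfl | rfl
      · exact hB.disj _ _ hij.symm
      · exact hB.disj _ _ hik.symm
    have hnot : ∀ X ∈ ({B j, B k} : Finset (Finset F)), u ∉ T.Vin X := by
      intro X hX hu
      rcases hne X hX with rfl | rfl
      · exact (hVin _ _ hu).2 (hout j)
      · exact (hVin _ _ hu).2 (hout k)
    have hcard : e ≤ (Pool.Agent.Helper1.FF2.Vcl T (B i)).card := by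
      refine le_trans (hB.big i) (card_le_card ?_)
      intro v hv
      obtain ⟨f, hf⟩ := hS.face v
      simp only [Tri.Vin, mem_filter, mem_univ, true_and] at hv
      simp only [Pool.Agent.Helper1.FF2.Vcl, mem_filter, mem_univ, true_and]
      exact ⟨f, hv f hf, hf⟩
    obtain ⟨U, α, -, -, hUE, -, hcov, -, hlen, hα0, hobs, -, -⟩ :=
      hSec V F T hS e l (B i) c {B j, B k} u hc.1 hobst hdisj (hout i) hnot hbad hcard
    -- a sector that contains both blobs
    have both : ∀ p, B j ⊆ U p → B k ⊆ U p → ∃ A, T.Cl B l i A ∧ u ∈ T.Vbd A := by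
      intro p hj hk
      have hi : B i ⊆ (U p)ᶜ := by
        intro g hg
        rw [mem_compl]
        intro hgU
        exact (disjoint_left.1 (hUE p)) hgU hg
      have hdj : Disjoint (U p)ᶜ (B j) := by
        rw [disjoint_left]
        intro g hg hgj
        exact (mem_compl.1 hg) (hj hgj)
      have hdk : Disjoint (U p)ᶜ (B k) := by
        rw [disjoint_left]
        intro g hg hgk
        exact (mem_compl.1 hg) (hk hgk)
      have hoth : ∀ j', j' ≠ i → Disjoint (U p)ᶜ (B j') := by
        intro j' hj'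
        rcases fin3 i j k j' hij hik hjk hj' with rfl | rfl
        · exact hdj
        · exact hdk
      have hl : l ≤ T.len (U p)ᶜ := by
        refine hB.sep _ ?_ ⟨i, hi⟩ ⟨j, hdj⟩
        intro i'
        by_cases h : i' = i
        · subst h; exact Or.inl hi
        · exact Or.inr (hoth i' h)
      have h2 := hlen p
      rw [lenc] at hl
      have hα : α p = 0 := by omega
      have hL : T.len (U p)ᶜ = l := by rw [lenc]; omega
      refine ⟨(U p)ᶜ, ⟨hi, hoth, hL⟩, ?_⟩
      rw [hVbd]
      exact (hα0 p).1 hα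
    have one : ∀ (m : Fin 3) (p : ℤ), m ≠ i → B m ⊆ U p → (∀ j', j' ≠ m → Disjoint (U p) (B j')) →
        ∃ A, T.Cl B l m A ∧ u ∈ T.Vbd A := by
      intro m p hmi hm hoth
      have hl : l ≤ T.len (U p) := by
        refine hB.sep _ ?_ ⟨m, hm⟩ ⟨i, hoth i hmi.symm⟩
        intro i'
        by_cases h : i' = m
        · subst h; exact Or.inl hm
        · exact Or.inr (hoth i' h)
      have h2 := hlen p
      have hα : α p = 0 := by omega
      have hL : T.len (U p) = l := by omega
      exact ⟨U p, ⟨hm, hoth, hL⟩, (hα0 p).1 hα⟩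
    have find : ∀ m : Fin 3, m ≠ i → B m ∈ ({B j, B k} : Finset (Finset F)) → ∃ p, B m ⊆ U p := by
      intro m hmi hm
      obtain ⟨g, hg⟩ := (bond m).1.1.1
      have hgi : g ∉ B i := fun h => (disjoint_left.1 (hB.disj m i hmi)) hg h
      obtain ⟨p, hp⟩ := hcov g hgi
      refine ⟨p, ?_⟩
      rcases hobs (B m) hm p with h | h
      · exact h
      · exact absurd hp (fun hp => (disjoint_left.1 h) hg hp)
    have hjm : B j ∈ ({B j, B k} : Finset (Finset F)) := by simp
    have hkm : B k ∈ ({B j, B k} : Finset (Finset F)) := by simp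
    obtain ⟨p, hp⟩ := find j hij.symm hjm
    obtain ⟨q, hq⟩ := find k hik.symm hkm
    rcases hobs (B k) hkm p with hkp | hkp
    · exact Or.inl (both p hp hkp)
    rcases hobs (B j) hjm q with hjq | hjq
    · exact Or.inl (both q hjq hq)
    right
    constructor
    · refine one j p hij.symm hp ?_
      intro j' hj'
      rcases fin3 j i k j' hij.symm hjk hik hj' with rfl | rfl
      · exact hUE p
      · exact hkp.symm
    · refine one k q hik.symm hq ?_
      intro j' hj'
      rcases fin3 k i j j' hik.symm hjk.symm hij hj' with rfl | rfl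
      · exact hUE q
      · exact hjq.symm
  rcases claim 0 1 2 (by decide) (by decide) (by decide) with h0 | ⟨h1, h2⟩
  · rcases claim 1 0 2 (by decide) (by decide) (by decide) with h1 | ⟨_, h2⟩
    · exact ⟨0, 1, by decide, h0, h1⟩
    · exact ⟨0, 2, by decide, h0, h2⟩
  · exact ⟨1, 2, by decide, h1, h2⟩

end Pool.Agent.Helper11.FF
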